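import Pool.Agent.helper38.OB.Spec

/-!
# The weights (row ob:WTS)
-/

namespace Pool.Agent.OB

open Finset

theorem WTS_C0_two (h : ℕ) (hh : 3 ≤ h) : 2 ≤ C0 h := by
  unfold C0
  nlinarith [hh]

theorem WTS_be_pos (h : ℕ) (hh : 3 ≤ h) : 0 < be h := by
  unfold be
  have := WTS_C0_two h hh
  positivity

theorem WTS_Bs_pos (h : ℕ) (hh : 3 ≤ h) : 0 < Bs h := by
  unfold Bs
  have := WTS_be_pos h hh
  positivity

/-- `β^l · C0^(dep+1) ≤ B^(l+1)` -/
theorem WTS_le (h l : ℕ) (hh : 3 ≤ h) (hd : C0 h ^ dep h l ≤ l + 1) :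
    be h ^ l * C0 h ^ (dep h l + 1) ≤ Bs h ^ (l + 1) := by
  have h2 := WTS_C0_two h hh
  have hb := WTS_be_pos h hh
  have hC1 : 1 ≤ C0 h := by omega
  have h1 : C0 h ^ (dep h l + 1) ≤ be h ^ (l + 1) := by
    calc C0 h ^ (dep h l + 1) = C0 h ^ dep h l * C0 h := pow_succ _ _
      _ ≤ (l + 1) * C0 h := Nat.mul_le_mul_right _ hd
      _ ≤ 2 ^ l * C0 h := Nat.mul_le_mul_right _ (Nat.succ_le_of_lt Nat.lt_two_pow_self)
      _ ≤ C0 h ^ l * C0 h := Nat.mul_le_mul_right _ (Nat.pow_le_pow_left h2 l)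
      _ = C0 h ^ (l + 1) := (pow_succ _ _).symm
      _ ≤ be h ^ (l + 1) := by
        apply Nat.pow_le_pow_left
        unfold be
        calc C0 h = C0 h ^ 1 := (pow_one _).symm
          _ ≤ C0 h ^ 6 := Nat.pow_le_pow_right (by omega) (by norm_num)
  calc be h ^ l * C0 h ^ (dep h l + 1) ≤ be h ^ l * be h ^ (l + 1) := Nat.mul_le_mul_left _ h1
    _ = be h ^ (l + (l + 1)) := (pow_add _ _ _).symm
    _ ≤ be h ^ (h * (l + 1)) := by
      apply Nat.pow_le_pow_right hb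
      nlinarith [hh, Nat.zero_le l]
    _ = Bs h ^ (l + 1) := by
      unfold Bs
      rw [pow_mul]

theorem WTS (hBAS : BAS_stmt) : WTS_stmt := by
  intro h hh κ hκ hκ1 l
  obtain ⟨b1, b2, -, -, b3, -⟩ := hBAS h hh l
  have hC : (0 : ℝ) < C0 h := by
    have := WTS_C0_two h hh
    exact_mod_cast (by omega : 0 < C0 h)
  have hb : (0 : ℝ) < be h := by exact_mod_cast WTS_be_pos h hh
  have hB : (0 : ℝ) < Bs h := by exact_mod_cast WTS_Bs_pos h hh
  have e1 : ∀ x ∈ S h l, wt h κ x = pl h κ l := by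
    intro x hx
    unfold wt
    rw [(b1 x hx).1]
  have hle : (be h : ℝ) ^ l * (C0 h : ℝ) ^ (dep h l + 1) ≤ (Bs h : ℝ) ^ (l + 1) := by
    exact_mod_cast WTS_le h l hh b3
  have e4 : ∑ x ∈ S h l, wt h κ x = κ * (be h : ℝ) ^ l := by
    rw [Finset.sum_congr rfl e1, Finset.sum_const, nsmul_eq_mul]
    have b2' : ((S h l).card : ℝ) * (C0 h : ℝ) ^ (dep h l + 1) = (Bs h : ℝ) ^ (l + 1) := by
      exact_mod_cast b2
    unfold pl
    rw [← b2']
    have hcard : ((S h l).card : ℝ) ≠ 0 := by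
      intro h0
      rw [h0, zero_mul] at b2'
      have : (0 : ℝ) < (Bs h : ℝ) ^ (l + 1) := by positivity
      linarith
    have hC' : (C0 h : ℝ) ^ (dep h l + 1) ≠ 0 := by positivity
    field_simp
  refine ⟨e1, ?_, ?_, e4⟩
  · unfold pl
    positivity
  · unfold pl
    rw [div_le_one (by positivity)]
    calc κ * (be h : ℝ) ^ l * (C0 h : ℝ) ^ (dep h l + 1)
        = κ * ((be h : ℝ) ^ l * (C0 h : ℝ) ^ (dep h l + 1)) := by ring
      _ ≤ 1 * ((be h : ℝ) ^ l * (C0 h : ℝ) ^ (dep h l + 1)) := by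
        apply mul_le_mul_of_nonneg_right hκ1
        positivity
      _ = (be h : ℝ) ^ l * (C0 h : ℝ) ^ (dep h l + 1) := one_mul _
      _ ≤ (Bs h : ℝ) ^ (l + 1) := hle

end Pool.Agent.OB
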